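import Pool.Agent.Lib.MP_28303a_al.TW.Graph
import Pool.Agent.Lib.MP_28303a_al.NK.H78.Lreg
import Pool.Agent.Lib.MP_28303a_al.NK.H50.Ext

/-! # Generation of the negative K-groups -/

set_option autoImplicit false
set_option linter.unusedSectionVars false
set_option linter.unusedVariables false

namespace Pool.Agent.NegK.TW.H19

universe u v w

open Matrix MonoidAlgebra

theorem fun_hom_hom (F : RFun.{u}) {A B C : Type u} [Ring A] [Ring B] [Ring C] (g : B →+* C)
    (f : A →+* B) (x : F.obj A) : F.hom g (F.hom f x) = F.hom (g.comp f) x := by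
  rw [F.hom_comp]
  rfl

/-- If `K₀(k[Γ])` is generated by the images of the `K₀(k[G v])` for all regular rings `k` then the
same holds for all `K_{-n}`. -/
theorem vgen {Γ V : Type u} [Group Γ] (G : V → Subgroup Γ)
    (h : ∀ (k : Type u) [Ring k], RegularRing k → ⨆ v, img k (G v) = ⊤) (n : ℕ) :
    ∀ (k : Type u) [Ring k], RegularRing k →
      ⨆ v, ((KNegFun n).hom (mdr k (G v).subtype)).range = ⊤ := by
  induction n with
  | zero => exact h
  | succ n ih =>
    intro k _ hk
    have h1 := ih (LaurentPolynomial k) (H78.lreg H50.ext k hk)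
    let X : AddSubgroup (KNeg (n + 1) (MonoidAlgebra k Γ)) :=
      ⨆ v, ((KNegFun (n + 1)).hom (mdr k (G v).subtype)).range
    let φ : KNeg n (LG k Γ) →+ KNeg (n + 1) (MonoidAlgebra k Γ) :=
      (QuotientAddGroup.mk' ((KNegFun n).polySub (MonoidAlgebra k Γ))).comp
        ((KNegFun n).hom (swp k Γ))
    have h2 : ⊤ ≤ X.comap φ := by
      rw [← h1]
      refine iSup_le fun v => ?_
      rintro _ ⟨y, rfl⟩
      show φ ((KNegFun n).hom (mdr (LaurentPolynomial k) (G v).subtype) y) ∈ X
      have h3 : φ ((KNegFun n).hom (mdr (LaurentPolynomial k) (G v).subtype) y) =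
          (KNegFun (n + 1)).hom (mdr k (G v).subtype)
            (QuotientAddGroup.mk' ((KNegFun n).polySub (MonoidAlgebra k (G v)))
              ((KNegFun n).hom (swp k (G v)) y)) := by
        show QuotientAddGroup.mk' _ ((KNegFun n).hom (swp k Γ)
          ((KNegFun n).hom (mdr (LaurentPolynomial k) (G v).subtype) y)) =
          QuotientAddGroup.mk' _ ((KNegFun n).hom (lmap (mdr k (G v).subtype))
            ((KNegFun n).hom (swp k (G v)) y))
        rw [fun_hom_hom, fun_hom_hom, ← swap_natural]
      rw [h3]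
      exact le_iSup (fun v => ((KNegFun (n + 1)).hom (mdr k (G v).subtype)).range) v ⟨_, rfl⟩
    rw [eq_top_iff]
    rintro x -
    obtain ⟨z, rfl⟩ := QuotientAddGroup.mk'_surjective ((KNegFun n).polySub (MonoidAlgebra k Γ)) x
    have h4 := h2 (AddSubgroup.mem_top ((KNegFun n).hom ((H64.swapEquiv k Γ).symm :
      LaurentPolynomial (MonoidAlgebra k Γ) →+* LG k Γ) z))
    have h5 : φ ((KNegFun n).hom ((H64.swapEquiv k Γ).symm :
      LaurentPolynomial (MonoidAlgebra k Γ) →+* LG k Γ) z) =
        QuotientAddGroup.mk' ((KNegFun n).polySub (MonoidAlgebra k Γ)) z := by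
      show QuotientAddGroup.mk' _ ((KNegFun n).hom (swp k Γ) ((KNegFun n).hom
        ((H64.swapEquiv k Γ).symm : LaurentPolynomial (MonoidAlgebra k Γ) →+* LG k Γ) z)) = _
      rw [fun_hom_hom]
      have h6 : (swp k Γ).comp ((H64.swapEquiv k Γ).symm :
          LaurentPolynomial (MonoidAlgebra k Γ) →+* LG k Γ) = RingHom.id _ :=
        RingHom.ext fun a => (H64.swapEquiv k Γ).apply_symm_apply a
      rw [h6, (KNegFun n).hom_id]
      rfl
    rw [← h5]
    exact h4

end Pool.Agent.NegK.TW.H19
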