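import Pool.Agent.Lib.MP_28303a_al.TW.Graph

/-! # THG -/

set_option autoImplicit false
set_option linter.unusedSectionVars false
set_option linter.unusedVariables false

namespace Pool.Agent.NegK.TW.H19

universe u v w

open Matrix MonoidAlgebra

theorem stab_edge {Γ V E : Type u} [Group Γ] [MulAction Γ V] [MulAction Γ E] (T : OTree Γ V E)
    {G : SimpleGraph V} (h : T.Of G) (e : E) : MulAction.stabilizer Γ e =
      MulAction.stabilizer Γ (T.o e) ⊓ MulAction.stabilizer Γ (T.t e) := by
  ext g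
  rw [Subgroup.mem_inf, MulAction.mem_stabilizer_iff, MulAction.mem_stabilizer_iff,
    MulAction.mem_stabilizer_iff]
  constructor
  · intro hg
    rw [← T.o_smul, ← T.t_smul, hg]
    exact ⟨rfl, rfl⟩
  · rintro ⟨h1, h2⟩
    exact h.inj _ _ (by rw [T.o_smul, h1]) (by rw [T.t_smul, h2])

/-- THG. -/
theorem thg (htha : ThaStatement.{u}) (htre : TreStatement.{u}) (hlev : LevStatement.{u})
    (hsubt : SubtStatement.{u}) (hfina : FinaStatement.{u}) : ThgStatement.{u} := by
  intro k Γ V _ _ _ G hG hE hP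
  obtain ⟨E, _, T, hT⟩ := htre Γ V G hG
  obtain ⟨b⟩ := hG.tree.connected.nonempty
  refine htha k Γ V E T b (hsubt Γ V E G T hG.tree hT b) (fun e => ?_)
    (hlev Γ V E G T hG.tree hT).1 (hfina k Γ V E G T hG hT hP)
  rw [stab_edge T hT e]
  exact hE _ _ (hT.adj e)

end Pool.Agent.NegK.TW.H19
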