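import Pool.Agent.Lib.MP_28303a_al.TW.Lemmas

/-! # GEO -/

set_option autoImplicit false
set_option linter.unusedSectionVars false
set_option linter.unusedVariables false

namespace Pool.Agent.NegK.TW.H19

universe u v w

open Matrix MonoidAlgebra

theorem stab_t_le {Γ V E : Type u} [Group Γ] [MulAction Γ V] [MulAction Γ E] (T : OTree Γ V E)
    (e : E) : MulAction.stabilizer Γ e ≤ MulAction.stabilizer Γ (T.t e) := by
  intro g hg
  rw [MulAction.mem_stabilizer_iff] at hg ⊢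
  rw [← T.t_smul, hg]

theorem cC_comp_int (k Γ : Type u) [Ring k] [Group Γ] :
    (cC k Γ).comp (Int.castRingHom (MonoidAlgebra k Γ)) = Int.castRingHom (LG k Γ) :=
  RingHom.ext_int _ _

/-- GEO. -/
theorem geo (hpsi : PsiStatement.{u}) (hedg : EdgStatement.{u}) (hlamg : LamgStatement.{u})
    (hnus : NusStatement.{u}) (hnud : NudStatement.{u}) : GeoStatement.{u} := by
  intro S k Γ V E _ _ _ _ T b hb hE X hV hν
  have hEX : (⨆ e : E, img k (MulAction.stabilizer Γ e)) ≤ X :=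
    iSup_le fun e => (img_mono (stab_t_le T e)).trans (hV _)
  have key : ∀ (n : ℕ) (p : Matrix (Fin n) (Fin n) (MonoidAlgebra k Γ)) (hp : p * p = p),
      mcls p hp ∈ X := by
    intro n p hp
    obtain ⟨JE, JX, _, _, _, _, dE, dX, δ, w, q, r, C, C', hT, hC, hC', hχ⟩ :=
      hpsi (LaurentPolynomial k) Γ V E T b hb n (pMat p) (isUnit_pMat S p hp)
    have h1 := hχ _ (gdet S k Γ)
    rw [gdet_pMat S p hp] at h1
    let c : Matrix JX (JE ⊕ Fin n) (MonoidAlgebra k Γ) :=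
      C.map (Int.castRingHom (MonoidAlgebra k Γ))
    let c' : Matrix (JE ⊕ Fin n) JX (MonoidAlgebra k Γ) :=
      C'.map (Int.castRingHom (MonoidAlgebra k Γ))
    have hc : c * c' = 1 := by
      show C.map _ * C'.map _ = 1
      rw [← Matrix.map_mul, hC]
      exact Matrix.map_one _ (map_zero _) (map_one _)
    have hc' : c' * c = 1 := by
      show C'.map _ * C.map _ = 1
      rw [← Matrix.map_mul, hC']
      exact Matrix.map_one _ (map_zero _) (map_one _)
    have hcc : c.map (cC k Γ) = C.map (Int.castRingHom (LG k Γ)) := by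
      show (C.map _).map _ = _
      rw [Matrix.map_map]
      congr 1
      funext x
      exact RingHom.congr_fun (cC_comp_int k Γ) x
    obtain ⟨JE₁, JX₁, _, _, _, _, dE₁, dX₁, δ₁, w₁, q₁, r₁, C₁, C₁', π₀, hT₁, hC₁, hC₁', hπ, h2⟩ :=
      hedg S k Γ V E T hE JE (Fin n) JX dE (fun _ => b) dX δ w q r hT c c' hc hc'
    have h3 := hlamg S k Γ V E T JE₁ (Fin n) JX₁ dE₁ (fun _ => b) dX₁ δ₁ w₁ q₁ r₁ hT₁ C₁ C₁' hC₁
      hC₁' π₀ hπ
    have h4 := hnus (LaurentPolynomial k) Γ V E T JE₁ (Fin n) JX₁ dE₁ (fun _ => b) dX₁ δ₁ w₁ q₁ r₁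
      hT₁
    have h5 := (hnud (LaurentPolynomial k) Γ V E T JE₁ (Fin n) JX₁ dE₁ (fun _ => b) dX₁ δ₁ w₁ q₁
      r₁ hT₁).1
    have h6 := hν _ (dOr dE₁) _ h4 h5
    have h2' := hEX h2
    have h3' := (iSup_le fun j => hV (dX₁ j) : (⨆ j, img k (MulAction.stabilizer Γ (dX₁ j))) ≤ X) h3
    rw [hcc] at h2'
    change (gdet S k Γ).val (fromRows δ w * C.map (Int.castRingHom (LG k Γ))) = _ at h1
    rw [h1] at h2'
    have h7 := X.sub_mem (X.add_mem h3' h6) h2'
    rwa [sub_add_cancel, sub_sub_cancel] at h7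
  rw [eq_top_iff]
  rintro z -
  obtain ⟨p, p', rfl⟩ := exists_sub z
  refine X.sub_mem ?_ ?_
  · rw [← mcls_self p]; exact key _ _ _
  · rw [← mcls_self p']; exact key _ _ _

end Pool.Agent.NegK.TW.H19
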