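import Pool.Agent.Lib.MP_28303a_al.TW.Graph2

/-! # RCN: `K₀(A) → K₀(A[X])` is onto for regular coherent rings `A` -/

set_option autoImplicit false
set_option linter.unusedSectionVars false
set_option linter.unusedVariables false

namespace Pool.Agent.NegK.TW.H19

universe u v w

open Matrix

/-- `A[s, s⁻¹][t] → A[t][s, s⁻¹]`. -/
noncomputable def psw (A : Type u) [Ring A] :
    Polynomial (LaurentPolynomial A) →+* LaurentPolynomial (Polynomial A) :=
  Polynomial.eval₂RingHom' (lmap (Polynomial.C : A →+* Polynomial A))
    (LaurentPolynomial.C Polynomial.X) (by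
    intro b
    induction b using LaurentPolynomial.induction_on' with
    | add p q hp hq => rw [map_add]; exact hp.add_left hq
    | C_mul_T n a =>
      rw [map_mul, lmap_C, lmap_T]
      refine Commute.mul_left ?_ (LaurentPolynomial.commute_T _ _)
      exact (Polynomial.commute_X (Polynomial.C a)).symm.map
        (LaurentPolynomial.C : Polynomial A →+* LaurentPolynomial (Polynomial A)))

theorem psw_C (A : Type u) [Ring A] (b : LaurentPolynomial A) :
    psw A (Polynomial.C b) = lmap Polynomial.C b := Polynomial.eval₂_C _ _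

theorem psw_X (A : Type u) [Ring A] :
    psw A Polynomial.X = LaurentPolynomial.C Polynomial.X := Polynomial.eval₂_X _ _

theorem psw_mapC (A : Type u) [Ring A] : (psw A).comp
    (Polynomial.mapRingHom (LaurentPolynomial.C : A →+* LaurentPolynomial A)) =
      LaurentPolynomial.C := by
  refine Polynomial.ringHom_ext (fun a => ?_) ?_
  · rw [RingHom.comp_apply, Polynomial.coe_mapRingHom, Polynomial.map_C, psw_C, lmap_C]
  · rw [RingHom.comp_apply, Polynomial.coe_mapRingHom, Polynomial.map_X, psw_X]

theorem isUnit_central {B : Type u} [Ring B] {ι : Type} [Fintype ι] [DecidableEq ι]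
    (P : Matrix ι ι B) (hP : P * P = P) (c c' : B) (h1 : c * c' = 1) (h2 : c' * c = 1)
    (hc : ∀ x, c * x = x * c) (hc' : ∀ x, c' * x = x * c') :
    IsUnit (1 - P + P.map (fun x => x * c)) := by
  have e : ∀ d : B, P.map (fun x => x * d) = P * Matrix.diagonal (fun _ => d) := by
    intro d
    ext i j
    rw [Matrix.mul_diagonal, Matrix.map_apply]
  have key : ∀ d d' : B, d * d' = 1 → (∀ x, d * x = x * d) →
      (1 - P + P.map (fun x => x * d)) * (1 - P + P.map (fun x => x * d')) = 1 := by
    intro d d' hd hdc
    rw [e, e]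
    have f1 : Matrix.diagonal (fun _ : ι => d) * P = P * Matrix.diagonal (fun _ => d) := by
      ext i j
      rw [Matrix.diagonal_mul, Matrix.mul_diagonal, hdc]
    have f2 : Matrix.diagonal (fun _ : ι => d) * Matrix.diagonal (fun _ : ι => d') = 1 := by
      rw [Matrix.diagonal_mul_diagonal, hd, Matrix.diagonal_one]
    have f3 : P * Matrix.diagonal (fun _ : ι => d) * P = P * Matrix.diagonal (fun _ => d) := by
      rw [Matrix.mul_assoc, f1, ← Matrix.mul_assoc, hP]
    have f4 : P * Matrix.diagonal (fun _ : ι => d) * (P * Matrix.diagonal (fun _ : ι => d')) = P := by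
      rw [← Matrix.mul_assoc, f3, Matrix.mul_assoc, f2, Matrix.mul_one]
    have f5 : P * (P * Matrix.diagonal (fun _ : ι => d')) = P * Matrix.diagonal (fun _ : ι => d') := by
      rw [← Matrix.mul_assoc, hP]
    rw [Matrix.add_mul, Matrix.sub_mul, Matrix.mul_add, Matrix.mul_add, Matrix.mul_add,
      Matrix.mul_sub, Matrix.mul_sub, Matrix.mul_sub, f3, f4, f5, hP]
    simp only [Matrix.one_mul, Matrix.mul_one]
    abel
  exact isUnit_of_mul (key c c' h1 hc) (key c' c h2 hc')

/-- RCN. -/
theorem rcn (hS : ∃ S : BdSys.{u}, IsInd S) (hhig : HigStatement.{u}) (hlnp : LnpStatement.{u}) :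
    RcnStatement.{u} := by
  intro A _ hA
  obtain ⟨S, hS⟩ := hS
  have key : ∀ (n : ℕ) (p : Matrix (Fin n) (Fin n) (Polynomial A)) (hp : p * p = p),
      mcls p hp ∈ (K0.map (Polynomial.C : A →+* Polynomial A)).range := by
    intro n p hp
    let χ : Det1 (Polynomial (LaurentPolynomial A)) (K0 (Polynomial A)) :=
      (S.δ (Polynomial A)).comap (psw A)
    have hχ : ∀ {ι : Type} [Fintype ι] [DecidableEq ι]
        (α : Matrix ι ι (Polynomial (LaurentPolynomial A))),
        χ.val α = (S.δ (Polynomial A)).val (α.map (psw A)) := fun α => rfl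
    let m : Polynomial A →+* Polynomial (LaurentPolynomial A) :=
      Polynomial.mapRingHom (LaurentPolynomial.C : A →+* LaurentPolynomial A)
    let c : Polynomial (LaurentPolynomial A) := Polynomial.C (LaurentPolynomial.T 1)
    let c' : Polynomial (LaurentPolynomial A) := Polynomial.C (LaurentPolynomial.T (-1))
    have hcc : ∀ (k : ℤ) (x : Polynomial (LaurentPolynomial A)),
        Polynomial.C (LaurentPolynomial.T k) * x = x * Polynomial.C (LaurentPolynomial.T k) := by
      intro k x
      induction x using Polynomial.induction_on' with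
      | add a b ha hb => rw [mul_add, add_mul, ha, hb]
      | monomial r a =>
        rw [← Polynomial.C_mul_X_pow_eq_monomial, ← mul_assoc, ← Polynomial.C_mul, mul_assoc,
          Polynomial.X_pow_mul, ← mul_assoc, ← Polynomial.C_mul]
        congr 2
        exact ((LaurentPolynomial.commute_T k a).eq)
    have h1 : c * c' = 1 := by
      show Polynomial.C _ * Polynomial.C _ = 1
      rw [← Polynomial.C_mul, ← LaurentPolynomial.T_add]
      simp
    have h2 : c' * c = 1 := by
      show Polynomial.C _ * Polynomial.C _ = 1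
      rw [← Polynomial.C_mul, ← LaurentPolynomial.T_add]
      simp
    have hP : p.map m * p.map m = p.map m := by rw [← Matrix.map_mul, hp]
    let β : Matrix (Fin n) (Fin n) (Polynomial (LaurentPolynomial A)) :=
      1 - p.map m + (p.map m).map (fun x => x * c)
    have hβ : IsUnit β := isUnit_central (p.map m) hP c c' h1 h2 (hcc 1) (hcc (-1))
    have hβ' : β.map (psw A) = 1 - p.map LaurentPolynomial.C +
        p.map (fun a => LaurentPolynomial.C a * LaurentPolynomial.T 1) := by
      have g1 : ∀ a, psw A (m a) = LaurentPolynomial.C a :=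
        fun a => RingHom.congr_fun (psw_mapC A) a
      have g2 : psw A c = LaurentPolynomial.T 1 := by
        show psw A (Polynomial.C _) = _
        rw [psw_C, lmap_T]
      ext1 i j
      show psw A ((1 : Matrix (Fin n) (Fin n) _) i j - m (p i j) + m (p i j) * c) =
        (1 : Matrix (Fin n) (Fin n) _) i j - LaurentPolynomial.C (p i j) +
          LaurentPolynomial.C (p i j) * LaurentPolynomial.T 1
      rw [map_add, map_sub, map_mul, g1, g2]
      congr 2
      by_cases hij : i = j
      · subst hij
        rw [Matrix.one_apply_eq, Matrix.one_apply_eq, map_one]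
      · rw [Matrix.one_apply_ne hij, Matrix.one_apply_ne hij, map_zero]
    obtain ⟨κ, _, _, a, N, ha, hN, hu, h3⟩ := hhig (LaurentPolynomial A) _ χ (Fin n) β hβ
    have h4 : χ.val β = mcls p hp := by
      rw [hχ, hβ']
      exact (S.proj p hp).2
    have h5 : χ.val (a.map Polynomial.C) = K0.map Polynomial.C ((S.δ A).val a) := by
      rw [hχ, Matrix.map_map, ← S.nat (Polynomial.C : A →+* Polynomial A) a ha]
      congr 2
      funext b
      exact psw_C A b
    have h6 : χ.val (1 + N.map (fun b => Polynomial.C b * Polynomial.X)) = 0 := by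
      rw [hχ, hS, ← hlnp A hA κ N hN]
      congr 1
      ext1 i j
      show psw A ((1 : Matrix κ κ _) i j + Polynomial.C (N i j) * Polynomial.X) =
        (1 : Matrix κ κ _) i j + lmap (Polynomial.C : A →+* Polynomial A) (N i j) *
          LaurentPolynomial.C Polynomial.X
      rw [map_add, map_mul, psw_C, psw_X]
      congr 1
      by_cases hij : i = j
      · subst hij
        rw [Matrix.one_apply_eq, Matrix.one_apply_eq, map_one]
      · rw [Matrix.one_apply_ne hij, Matrix.one_apply_ne hij, map_zero]
    rw [← h4, h3, h5, h6, add_zero]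
    exact ⟨_, rfl⟩
  rw [← AddMonoidHom.range_eq_top, eq_top_iff]
  rintro z -
  obtain ⟨p, p', rfl⟩ := exists_sub z
  refine AddSubgroup.sub_mem _ ?_ ?_
  · rw [← mcls_self p]; exact key _ _ _
  · rw [← mcls_self p']; exact key _ _ _

end Pool.Agent.NegK.TW.H19
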