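import Pool.Agent.Lib.MP_28303a_al.TW.Graph2

/-! # RCU -/

set_option autoImplicit false
set_option linter.unusedSectionVars false
set_option linter.unusedVariables false

namespace Pool.Agent.NegK.TW.H19

universe u v w

open Matrix MonoidAlgebra

/-- RCU. -/
theorem rcu (hmra : MraStatement.{u}) (hmrb : MrbStatement.{u}) (hmrc : MrcStatement.{u}) :
    RcuStatement.{u} := by
  classical
  intro G _ hG R _ hR n N hN
  obtain ⟨m, f, hf⟩ := Submodule.fg_iff_exists_fin_generating_family.1 hN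
  let z : Matrix (Fin m) (Fin n) (MonoidAlgebra R G) := f
  let S : Finset G := Finset.univ.biUnion fun i : Fin m => Finset.univ.biUnion fun j : Fin n =>
    (z i j).coeff.support
  obtain ⟨H, hH, hRC⟩ := hG S
  have hz : MSupp (Set.range H.subtype) z := by
    intro i j g hg
    have h1 : g ∈ S := Finset.mem_biUnion.2 ⟨i, Finset.mem_univ _, Finset.mem_biUnion.2
      ⟨j, Finset.mem_univ _, Finsupp.mem_support_iff.2 hg⟩⟩
    exact ⟨⟨g, hH g h1⟩, rfl⟩
  obtain ⟨z₀, hz₀⟩ := hz.exists_map H.subtype_injective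
  obtain ⟨d, hd⟩ := hmra (MonoidAlgebra R H) (hRC R hR) (Fin m) (Fin n) z₀
  have h1 := hmrc (MonoidAlgebra R G) d (Fin m) (Fin n) _
    (hmrb R H G H.subtype H.subtype_injective d (Fin m) (Fin n) z₀ hd)
  rw [hz₀] at h1
  have h2 : LinearMap.range z.vecMulLinear = N := by
    rw [_root_.range_vecMulLinear]
    exact hf
  rw [h2] at h1
  exact ⟨d, h1⟩

end Pool.Agent.NegK.TW.H19
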