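import Pool.Agent.Lib.MP_28303a_al.TW.Lemmas

/-! # THA -/

set_option autoImplicit false
set_option linter.unusedSectionVars false
set_option linter.unusedVariables false

namespace Pool.Agent.NegK.TW.H19

universe u v w

open Matrix MonoidAlgebra

/-- The boundary maps given by `ind`. -/
theorem exists_ind (h1 : IndaStatement.{u}) (h2 : IndbStatement.{u}) (h3 : InduStatement.{u})
    (h4 : IndnStatement.{u}) : ∃ S : BdSys.{u}, IsInd S := by
  refine ⟨{
    δ := fun B _ =>
      { val := fun {ι} _ _ α => ind α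
        mul := fun {ι} _ _ α β hα hβ => (h1 B ι).2 α β hα hβ
        blocks := fun {ι κ} _ _ _ _ α β hα hβ => (h2 B ι κ).1 α β hα hβ
        reindex := fun {ι κ} _ _ _ _ σ α hα => (h2 B ι κ).2 σ α hα
        upper := fun {ι κ} _ _ _ _ x => (h3 B ι κ).1 x
        lower := fun {ι κ} _ _ _ _ x => (h3 B ι κ).2.1 x }
    nat := fun {A B} _ _ f {ι} _ _ α hα => h4.1 A B f ι α hα
    const := fun {B} _ {ι} _ _ α hα => (h3 B ι ι).2.2 α hα
    proj := fun {B} _ {ι} _ _ p hp => h4.2 B ι p hp }, ?_⟩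
  intro B _ ι _ _ α
  rfl

/-- THA. -/
theorem tha (hS : ∃ S : BdSys.{u}, IsInd S) (hgeo : GeoStatement.{u}) (href : RefStatement.{u}) :
    ThaStatement.{u} := by
  intro k Γ V E _ _ _ _ T b hb hE hL hA
  obtain ⟨S, hS⟩ := hS
  refine hgeo S k Γ V E T b hb hE _ (fun v => le_iSup (fun v : V => img k (MulAction.stabilizer Γ v)) v)
    fun J _ _ dg ν hν hu => ?_
  rw [href S hS k Γ (Dt E) T.prev hL hA J dg ν hν hu]
  exact AddSubgroup.zero_mem _

end Pool.Agent.NegK.TW.H19
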