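import Pool.Agent.Lib.MP_28303a_al.TW.H19.Asm
import Pool.Agent.Lib.MP_28303a_al.TW.H19.Geo
import Pool.Agent.Lib.MP_28303a_al.TW.H19.Tha
import Pool.Agent.Lib.MP_28303a_al.TW.H19.Thg
import Pool.Agent.Lib.MP_28303a_al.TW.H19.Rcn
import Pool.Agent.Lib.MP_28303a_al.TW.H19.Rcu
import Pool.Agent.Lib.MP_28303a_al.TW.H12.Edg
import Pool.Agent.Lib.MP_28303a_al.TW.H12.Polyk
import Pool.Agent.Lib.MP_28303a_al.TW.H12.Subt
import Pool.Agent.Lib.MP_28303a_al.TW.H14.Coh1
import Pool.Agent.Lib.MP_28303a_al.TW.H14.Lev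
import Pool.Agent.Lib.MP_28303a_al.TW.H14.Long
import Pool.Agent.Lib.MP_28303a_al.TW.H14.Mrc
import Pool.Agent.Lib.MP_28303a_al.TW.H14.Td
import Pool.Agent.Lib.MP_28303a_al.TW.H30.Coh
import Pool.Agent.Lib.MP_28303a_al.TW.H33.Euler
import Pool.Agent.Lib.MP_28303a_al.TW.H33.Lat
import Pool.Agent.Lib.MP_28303a_al.TW.H57.Hyp
import Pool.Agent.Lib.MP_28303a_al.TW.H57.Ori
import Pool.Agent.Lib.MP_28303a_al.TW.H57.Tre
import Pool.Agent.Lib.MP_28303a_al.TW.H59.Ginv
import Pool.Agent.Lib.MP_28303a_al.TW.H59.Mra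
import Pool.Agent.Lib.MP_28303a_al.TW.H59.Mrb
import Pool.Agent.Lib.MP_28303a_al.TW.H65.Psi
import Pool.Agent.Lib.MP_28303a_al.TW.H65.Ref
import Pool.Agent.Lib.MP_28303a_al.TW.H67.Triv
import Pool.Agent.Lib.MP_28303a_al.TW.H70.Fina
import Pool.Agent.Lib.MP_28303a_al.TW.H70.Ret
import Pool.Agent.Lib.MP_28303a_al.TW.H72.Gr
import Pool.Agent.Lib.MP_28303a_al.TW.H75.Hig
import Pool.Agent.Lib.MP_28303a_al.TW.H75.Ht
import Pool.Agent.Lib.MP_28303a_al.TW.H75.Lam
import Pool.Agent.Lib.MP_28303a_al.TW.H75.Nud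
import Pool.Agent.Lib.MP_28303a_al.TW.H75.Nus
import Pool.Agent.Lib.MP_28303a_al.TW.H76.Chex
import Pool.Agent.Lib.MP_28303a_al.TW.H76.Es
import Pool.Agent.Lib.MP_28303a_al.TW.H76.Rect
import Pool.Agent.Lib.MP_28303a_al.TW.H76.Thbi
import Pool.Agent.Lib.MP_28303a_al.TW.H76.Thbo
import Pool.Agent.Lib.MP_28303a_al.TW.H82.Elimw
import Pool.Agent.Lib.MP_28303a_al.TW.H82.Fin
import Pool.Agent.Lib.MP_28303a_al.TW.H89.Defo
import Pool.Agent.Lib.MP_28303a_al.TW.H89.Lett1
import Pool.Agent.Lib.MP_28303a_al.TW.H89.Lett2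
import Pool.Agent.Lib.MP_28303a_al.TW.H95.Stat
import Pool.Agent.Lib.MP_28303a_al.TW.H95.Van
import Pool.Agent.Lib.MP_28303a_al.WR.H12.Preg
import Pool.Agent.Lib.MP_28303a_al.WR.H16.Inda
import Pool.Agent.Lib.MP_28303a_al.WR.H21.Indb
import Pool.Agent.Lib.MP_28303a_al.WR.H21.Indn
import Pool.Agent.Lib.MP_28303a_al.WR.H30.Cok
import Pool.Agent.Lib.MP_28303a_al.WR.H30.Geq
import Pool.Agent.Lib.MP_28303a_al.WR.H74.Indu

/-! # Assembly of the modules -/

set_option autoImplicit false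
set_option linter.unusedSectionVars false
set_option linter.unusedVariables false

namespace Pool.Agent.NegK.TW.H19

universe u

theorem geq' : GeqStatement.{u} := WR.H30.geq
theorem inda' : IndaStatement.{u} := WR.H16.inda geq'
theorem exInd : ∃ S : BdSys.{u}, IsInd S :=
  exists_ind inda' (WR.H21.indb geq' WR.H30.cok inda') (WR.H74.indu inda')
    (WR.H21.indn geq' WR.H30.cok inda')
theorem lat' : LatStatement.{u} := H33.lat H33.euler geq' inda'
theorem coh1' : Coh1Statement.{u} := H14.coh1 H59.mra H59.mrb H14.mrc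
theorem coh' : CohStatement.{u} := H30.coh coh1'
theorem lev' : LevStatement.{u} := H14.lev H14.td
theorem stat' : StatStatement.{u} := H95.stat H82.elimw H89.lett1
theorem lett2' : Lett2Statement.{u} := H89.lett2 H89.defo
theorem gr' : GrStatement.{u} := H72.gr H59.ginv
theorem lam' : LamStatement.{u} := H75.lam H75.ht
theorem nud' : NudStatement.{u} := H75.nud lam'
theorem nus' : NusStatement.{u} := H75.nus H75.ht
theorem tre' : TreStatement.{u} := H57.tre (H14.half H14.td) H57.ori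
theorem fina' : FinaStatement.{u} := H70.fina (H57.hyp lev')

theorem thbo' (hfam : FamStatement.{u}) (hrci : RciStatement.{u}) : ThboStatement.{u} :=
  H76.thbo H76.es H76.chex (H76.thbi (H82.fin hfam coh' hrci lat') hrci H76.es stat' lett2'
    H76.chex)

theorem thg' (hfam : FamStatement.{u}) (hrci : RciStatement.{u}) (hchn : ChnStatement.{u})
    (hwdf : WdfStatement.{u}) (hgrid : GridStatement.{u}) (hlamg : LamgStatement.{u}) :
    ThgStatement.{u} :=
  thg (tha exInd (geo H65.psi (H12.edg H75.ht hgrid gr') hlamg nus' nud')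
    (H65.ref hchn hwdf (thbo' hfam hrci))) tre' lev' H12.subt fina'

end Pool.Agent.NegK.TW.H19
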