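import Pool.Agent.Lib.MP_28303a_al.TW.Graph2
import Pool.Agent.Lib.MP_28303a_al.WR.H48.Pswap

/-! # RCS: regular coherent groups belong to the class `𝒮` -/

set_option autoImplicit false
set_option linter.unusedSectionVars false
set_option linter.unusedVariables false

namespace Pool.Agent.NegK.TW.H19

universe u v w

open Matrix MonoidAlgebra
open WR.H48 (pswapEquiv pswapEquiv_single)

theorem surj_of_comp_equiv {A B B' : Type u} [Ring A] [Ring B] [Ring B'] (f : A →+* B)
    (e : B ≃+* B') (h : Function.Surjective (K0.map ((e : B →+* B').comp f))) :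
    Function.Surjective (K0.map f) := by
  intro z
  obtain ⟨x, hx⟩ := h (K0.map (e : B →+* B') z)
  refine ⟨x, ?_⟩
  have h1 := congrArg (K0.map (e.symm : B' →+* B)) hx
  rw [k0_map_map, k0_map_map, ← RingHom.comp_assoc] at h1
  have h2 : (e.symm : B' →+* B).comp (e : B →+* B') = RingHom.id B :=
    RingHom.ext fun a => e.symm_apply_apply a
  rw [h2, RingHom.id_comp, k0_map_id] at h1
  exact h1

theorem pswap_cst (R G : Type u) [Ring R] [Group G] :
    (pswapEquiv R G : MonoidAlgebra (Polynomial R) G →+* Polynomial (MonoidAlgebra R G)).comp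
      (cmap G (Polynomial.C : R →+* Polynomial R)) = Polynomial.C := by
  refine MonoidAlgebra.ringHom_ext (fun r => ?_) (fun g => ?_)
  · simp only [RingHom.comp_apply, cmap_single]
    exact pswapEquiv_single R G 1 0 r
  · simp only [RingHom.comp_apply, cmap_single]
    exact pswapEquiv_single R G g 0 1

/-- RCS. -/
theorem rcs (hrcn : RcnStatement.{u}) (hrcl : RclStatement.{u}) (hpreg : PregStatement.{u})
    (hrci : RciStatement.{u}) : RcsStatement.{u} := by
  intro G _ hG R _ hR
  have hA : RegCoh (MonoidAlgebra R G) := hG R hR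
  have hAt : RegCoh (Polynomial (MonoidAlgebra R G)) :=
    hrci.1 _ _ (pswapEquiv R G) (hG (Polynomial R) (hpreg R hR))
  have h1 := hrcn _ hA
  have h2 := hrcl _ hAt
  constructor
  · refine surj_of_comp_equiv _ (pswapEquiv R G) ?_
    rw [pswap_cst]
    exact h1
  · refine surj_of_comp_equiv _ (H64.swapEquiv R G) ?_
    have h3 : (swp R G).comp (cC R G) = (posMap (MonoidAlgebra R G)).comp Polynomial.C := by
      rw [swp_cst]
      exact RingHom.ext fun a => (Polynomial.toLaurent_C a).symm
    show Function.Surjective (K0.map ((swp R G).comp (cC R G)))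
    rw [h3]
    intro z
    obtain ⟨y, rfl⟩ := h2 z
    obtain ⟨x, rfl⟩ := h1 y
    exact ⟨x, (k0_map_map _ _ _).symm⟩

end Pool.Agent.NegK.TW.H19
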