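import Pool.Agent.Lib.MP_28303a_al.TW.Graph
import Pool.Agent.Lib.MP_28303a_al.NK.H78.Lreg
import Pool.Agent.Lib.MP_28303a_al.NK.H50.Ext

/-! # TREEC -/

set_option autoImplicit false
set_option linter.unusedSectionVars false
set_option linter.unusedVariables false

namespace Pool.Agent.NegK.TW.H19

universe u v w

open Matrix MonoidAlgebra

theorem mdr_cmap {k k' G H : Type u} [Ring k] [Ring k'] [Group G] [Group H] (φ : k →+* k')
    (f : G →* H) : (mdr k' f).comp (cmap G φ) = (cmap H φ).comp (mdr k f) := by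
  refine MonoidAlgebra.ringHom_ext (fun r => ?_) (fun a => ?_)
  · simp only [RingHom.comp_apply, mdr_single, cmap_single]
  · simp only [RingHom.comp_apply, mdr_single, cmap_single]

/-- Surjectivity passes from the vertex groups to the group. -/
theorem surj_of_sup {k k' Γ V : Type u} [Ring k] [Ring k'] [Group Γ] [MulAction Γ V] (φ : k →+* k')
    (h1 : ⨆ v : V, img k' (MulAction.stabilizer Γ v) = ⊤)
    (h2 : ∀ v : V, Function.Surjective (K0.map (cmap (MulAction.stabilizer Γ v) φ))) :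
    Function.Surjective (K0.map (cmap Γ φ)) := by
  rw [← AddMonoidHom.range_eq_top, eq_top_iff, ← h1]
  refine iSup_le fun v => ?_
  rintro _ ⟨y, rfl⟩
  obtain ⟨x, rfl⟩ := h2 v y
  refine ⟨K0.map (mdr k (MulAction.stabilizer Γ v).subtype) x, ?_⟩
  rw [k0_map_map, k0_map_map, mdr_cmap]

theorem pathCond_mono {Γ V : Type u} [Group Γ] [MulAction Γ V] {P P' Q Q' : Subgroup Γ → Prop}
    (hP : ∀ H, P H → P' H) (hQ : ∀ H, Q H → Q' H) {G : SimpleGraph V} (h : PathCond P Q G) :
    PathCond P' Q' G := by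
  intro ι _ a b K h1 h2 h3
  obtain ⟨K', m, M, ρ, h4, h5⟩ := h ι a b K h1 h2 h3
  exact ⟨K', m, M, ρ, h4, ⟨h5.le, fun S hS h0 => hP _ (h5.coh S hS h0), h5.mono, h5.strict,
    fun S hS h0 g hg h => hQ _ (h5.nil S hS h0 g hg h)⟩⟩

/-- TREEC. -/
theorem treec (hthg : ThgStatement.{u}) (hpreg : PregStatement.{u}) : TreecStatement.{u} := by
  intro Γ V _ _ G hG hV hE hP R _ hR
  have key : ∀ (k' : Type u) [Ring k'], RegularRing k' →
      ⨆ v : V, img k' (MulAction.stabilizer Γ v) = ⊤ := fun k' _ hk =>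
    hthg k' Γ V G hG (fun v w hvw => (hE v w hvw k' hk).2)
      (pathCond_mono (fun H h => h k' hk) (fun H h => (h k' hk).1) hP)
  exact ⟨surj_of_sup _ (key _ (hpreg R hR)) fun v => (hV v R hR).1,
    surj_of_sup _ (key _ (H78.lreg H50.ext R hR)) fun v => (hV v R hR).2⟩

end Pool.Agent.NegK.TW.H19
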