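import Pool.Agent.Lib.MP_28303a_al.TW.Graph3
import Pool.Agent.Lib.MP_28303a_al.TW.H19.Rcs
import Pool.Agent.Lib.MP_28303a_al.TW.H19.Treec
import Pool.Agent.Lib.MP_28303a_al.TW.H19.Vgen

/-! # Assembly: the class of groups defined by one condition -/

set_option autoImplicit false
set_option linter.unusedSectionVars false
set_option linter.unusedVariables false

namespace Pool.Agent.NegK.TW.H19

universe u v w

open Matrix MonoidAlgebra
open WR.H48 (pswapEquiv)

/-- `K₀(R[G]) → K₀(R[t, t⁻¹][G])` is onto for all regular rings `R`. -/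
def InL (G : Type u) [Group G] : Prop :=
  ∀ (R : Type u) [Ring R], RegularRing R → NilLaur R G

/-- One condition suffices. -/
theorem inS_iff (hfun : FunStatement.{u}) (G : Type u) [Group G] : InL G ↔ InS G := by
  constructor
  · intro h R _ hR
    refine ⟨?_, h R hR⟩
    have h1 : Function.Surjective (K0.map (LaurentPolynomial.C :
        MonoidAlgebra R G →+* LaurentPolynomial (MonoidAlgebra R G))) := by
      rw [← swp_cst]
      intro z
      obtain ⟨x, hx⟩ := h R hR (K0.map ((H64.swapEquiv R G).symm :
        LaurentPolynomial (MonoidAlgebra R G) →+* LG R G) z)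
      refine ⟨x, ?_⟩
      have h2 := congrArg (K0.map (swp R G)) hx
      rw [k0_map_map, k0_map_map] at h2
      have h3 : (swp R G).comp ((H64.swapEquiv R G).symm :
          LaurentPolynomial (MonoidAlgebra R G) →+* LG R G) = RingHom.id _ :=
        RingHom.ext fun a => (H64.swapEquiv R G).apply_symm_apply a
      rw [h3, k0_map_id] at h2
      exact h2
    have h4 := hfun (MonoidAlgebra R G) h1
    refine surj_of_comp_equiv _ (pswapEquiv R G) ?_
    rw [pswap_cst]
    exact h4
  · intro h R _ hR
    exact (h R hR).2

/-- Generation of all negative K-groups by the vertex groups. -/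
theorem gen_all (hthg : ThgStatement.{u}) {Γ V : Type u} [Group Γ] [MulAction Γ V]
    (G : SimpleGraph V) (hG : TreeAct Γ G)
    (hE : ∀ v w, G.Adj v w →
      InL (MulAction.stabilizer Γ v ⊓ MulAction.stabilizer Γ w : Subgroup Γ))
    (hP : PathCond (fun H : Subgroup Γ => InRC H) (fun H : Subgroup Γ => InS H) G) (n : ℕ)
    (R : Type u) [Ring R] (hR : RegularRing R) :
    ⨆ v : V, ((KNegFun n).hom (mdr R (MulAction.stabilizer Γ v).subtype)).range = ⊤ := by
  refine vgen (fun v : V => MulAction.stabilizer Γ v) (fun k _ hk => ?_) n R hR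
  exact hthg k Γ V G hG (fun v w hvw => hE v w hvw k hk)
    (pathCond_mono (fun H h => h k hk) (fun H h => (h k hk).1) hP)

end Pool.Agent.NegK.TW.H19
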