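import Pool.Agent.Lib.MP_28303a_al.TW.H19.Fin1
import Pool.Agent.Lib.MP_28303a_al.TW.H6.Prodz
import Pool.Agent.Lib.MP_28303a_al.TW.H6.Uni
import Pool.Agent.Lib.MP_28303a_al.TW.H27.Lnp
import Pool.Agent.Lib.MP_28303a_al.TW.H27.Rcl
import Pool.Agent.Lib.MP_28303a_al.TW.H59.Mrp
import Pool.Agent.Lib.MP_28303a_al.TW.H69.Chn
import Pool.Agent.Lib.MP_28303a_al.TW.H69.Fam
import Pool.Agent.Lib.MP_28303a_al.TW.H69.Wdf
import Pool.Agent.Lib.MP_28303a_al.TW.H72.Grid
import Pool.Agent.Lib.MP_28303a_al.TW.H72.Lamg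
import Pool.Agent.Lib.MP_28303a_al.TW.H89.Gconj
import Pool.Agent.Lib.MP_28303a_al.TW.H89.Rci
import Pool.Agent.Lib.MP_28303a_al.TW.H17.Fun

/-! # The theorem on groups acting on trees -/

set_option autoImplicit false
set_option linter.unusedSectionVars false
set_option linter.unusedVariables false

namespace Pool.Agent.NegK.TW.H19

universe u

open MonoidAlgebra

/-- The condition (N) in terms of the class of groups defined by one condition. -/
def CondL (Γ : Type u) [Group Γ] {V : Type u} [MulAction Γ V] (T : SimpleGraph V) : Prop :=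
  ∀ (ι : Type) [Finite ι] (a b : ι → V) (K : ι → Subgroup Γ), (∀ i, T.Adj (a i) (b i)) →
    (∀ i, (K i).FG) →
    (∀ i, K i ≤ MulAction.stabilizer Γ (a i) ⊓ MulAction.stabilizer Γ (b i)) →
    ∃ (K' : ι → Subgroup Γ) (m M : ℕ) (ρ : Subgroup Γ → ℕ),
      (∀ i, K i ≤ K' i ∧ K' i ≤ MulAction.stabilizer Γ (a i) ⊓ MulAction.stabilizer Γ (b i)) ∧
      (∀ S ∈ PathGroups T a b K' m, ρ S ≤ M) ∧
      (∀ S ∈ PathGroups T a b K' m, ρ S = 0 → InRC S) ∧
      (∀ S ∈ PathGroups T a b K' m, ∀ S' ∈ PathGroups T a b K' m, S ≤ S' → ρ S ≤ ρ S') ∧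
      (∀ S ∈ PathGroups T a b K' m, ∀ S' ∈ PathGroups T a b K' m, S < S' → ρ S' ≠ 0 →
        ρ S < ρ S') ∧
      (∀ S ∈ PathGroups T a b K' m, ρ S ≠ 0 → ∀ g : Γ, (∀ v : V, g • v ≠ v) →
        S.map (MulAut.conj g).toMonoidHom = S → InL (S ⊔ Subgroup.zpowers g : Subgroup Γ))

theorem condL_pathCond (hfun : FunStatement.{u}) {Γ V : Type u} [Group Γ] [MulAction Γ V]
    {T : SimpleGraph V} (h : CondL Γ T) :
    PathCond (fun H : Subgroup Γ => InRC H) (fun H : Subgroup Γ => InS H) T := by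
  intro ι _ a b K h1 h2 h3
  obtain ⟨K', m, M, ρ, h4, h5, h6, h7, h8, h9⟩ := h ι a b K h1 h2 h3
  exact ⟨K', m, M, ρ, h4, ⟨h5, h6, h7, h8, fun S hS h0 g hg h =>
    (inS_iff hfun _).1 (h9 S hS h0 g hg h)⟩⟩

/-- The main theorem. -/
theorem main_of (hfun : FunStatement.{u}) :
    (∀ (Γ V : Type u) [Group Γ] [MulAction Γ V] (T : SimpleGraph V), TreeAct Γ T →
      (∀ v w, T.Adj v w →
        InL (MulAction.stabilizer Γ v ⊓ MulAction.stabilizer Γ w : Subgroup Γ)) →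
      (CondL Γ T ∨ LongRC Γ T) →
      (∀ (R : Type u) [Ring R], RegularRing R → ∀ n : ℕ, ⨆ v : V,
        ((KNegFun n).hom (MonoidAlgebra.mapDomainRingHom R
          (MulAction.stabilizer Γ v).subtype)).range = ⊤) ∧
      ((∀ v : V, InL (MulAction.stabilizer Γ v)) → InL Γ)) ∧
    (∀ (G : Type u) [Group G], InL G → ∀ (R : Type u) [Ring R], RegularRing R → ∀ n : ℕ,
      Subsingleton (KNeg (n + 1) (MonoidAlgebra R G))) ∧
    (∀ (G : Type u) [Group G], InRC G → InL G) ∧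
    InRC PUnit.{u + 1} ∧
    (∀ (G : Type u) [Group G],
      ((∀ S : Finset G, ∃ H : Subgroup G, (∀ s ∈ S, s ∈ H) ∧ InL H) → InL G) ∧
      ((∀ S : Finset G, ∃ H : Subgroup G, (∀ s ∈ S, s ∈ H) ∧ InRC H) → InRC G) ∧
      (InL G → InL (G × Multiplicative ℤ)) ∧
      (InRC G → InRC (G × Multiplicative ℤ))) := by
  have hrci : RciStatement.{u} := H89.rci
  have hthg : ThgStatement.{u} := thg' H69.fam hrci H69.chn H69.wdf (H72.grid H89.gconj)
    (H72.lamg lam' nud' H76.rect gr')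
  have hiff : ∀ (G : Type u) [Group G], InL G ↔ InS G := fun G _ => inS_iff hfun G
  have hcond : ∀ {Γ V : Type u} [Group Γ] [MulAction Γ V] {T : SimpleGraph V},
      (CondL Γ T ∨ LongRC Γ T) →
      PathCond (fun H : Subgroup Γ => InRC H) (fun H : Subgroup Γ => InS H) T := by
    intro Γ V _ _ T h
    rcases h with h | h
    · exact condL_pathCond hfun h
    · exact H14.long Γ V T h
  have hrcs : RcsStatement.{u} :=
    rcs (rcn exInd H75.hig (H27.lnp H59.mra H59.mrp H14.mrc lat')) (H27.rcl H59.mra)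
      WR.H12p.preg hrci
  refine ⟨fun Γ V _ _ T hT hE hN => ⟨fun R _ hR n => ?_, fun hV => ?_⟩, fun G _ hG R _ hR n => ?_,
    fun G _ hG => (hiff G).2 (hrcs G hG), (H67.triv (H12.polyk WR.H12p.preg)).2,
    fun G _ => ⟨fun h => ?_, rcu H59.mra H59.mrb H14.mrc G, fun h => ?_, (H6.prodz hrci).2 G⟩⟩
  · exact gen_all hthg T hT hE (hcond hN) n R hR
  · exact (hiff Γ).2 (treec hthg WR.H12p.preg Γ V T hT (fun v => (hiff _).1 (hV v))
      (fun v w hvw => (hiff _).1 (hE v w hvw)) (hcond hN))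
  · exact H95.van G ((hiff G).1 hG) n R hR
  · exact (hiff G).2 (H6.uni G fun S => by
      obtain ⟨H, h1, h2⟩ := h S
      exact ⟨H, h1, (hiff H).1 h2⟩)
  · exact (hiff _).2 ((H6.prodz hrci).1 G ((hiff G).1 h))

/-- The main theorem. -/
theorem main :
    (∀ (Γ V : Type u) [Group Γ] [MulAction Γ V] (T : SimpleGraph V), TreeAct Γ T →
      (∀ v w, T.Adj v w →
        InL (MulAction.stabilizer Γ v ⊓ MulAction.stabilizer Γ w : Subgroup Γ)) →
      (CondL Γ T ∨ LongRC Γ T) →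
      (∀ (R : Type u) [Ring R], RegularRing R → ∀ n : ℕ, ⨆ v : V,
        ((KNegFun n).hom (MonoidAlgebra.mapDomainRingHom R
          (MulAction.stabilizer Γ v).subtype)).range = ⊤) ∧
      ((∀ v : V, InL (MulAction.stabilizer Γ v)) → InL Γ)) ∧
    (∀ (G : Type u) [Group G], InL G → ∀ (R : Type u) [Ring R], RegularRing R → ∀ n : ℕ,
      Subsingleton (KNeg (n + 1) (MonoidAlgebra R G))) ∧
    (∀ (G : Type u) [Group G], InRC G → InL G) ∧
    InRC PUnit.{u + 1} ∧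
    (∀ (G : Type u) [Group G],
      ((∀ S : Finset G, ∃ H : Subgroup G, (∀ s ∈ S, s ∈ H) ∧ InL H) → InL G) ∧
      ((∀ S : Finset G, ∃ H : Subgroup G, (∀ s ∈ S, s ∈ H) ∧ InRC H) → InRC G) ∧
      (InL G → InL (G × Multiplicative ℤ)) ∧
      (InRC G → InRC (G × Multiplicative ℤ))) :=
  main_of H17.fun_main

end Pool.Agent.NegK.TW.H19
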